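import Pool.Agent.W206.ND.Stm

/-! Project ND (owner helper206): part WL, rational translates. -/

set_option autoImplicit false

namespace Pool.Agent.W471.ND.WL

open Filter Topology
open Pool.Agent.W206.ND

lemma ee_add (a b : ℝ) : ee (a + b) = ee a * ee b := by
  unfold ee
  rw [← Complex.exp_add]
  congr 1
  push_cast
  ring

lemma ee_int (n : ℤ) : ee (n : ℝ) = 1 := by
  unfold ee
  rw [← Complex.exp_int_mul_two_pi_mul_I n]
  congr 1
  push_cast
  ring

lemma exists_period (b q : ℕ) (hq : 1 ≤ q) : ∃ k L : ℕ, 1 ≤ L ∧ ∀ i c : ℕ, k ≤ c →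
    (q : ℤ) ∣ (b : ℤ) ^ (L * i + c) - (b : ℤ) ^ c := by
  have : NeZero q := ⟨by omega⟩
  have key : ∀ m n : ℕ, m < n → ((b : ZMod q)) ^ m = (b : ZMod q) ^ n →
      ∃ k L : ℕ, 1 ≤ L ∧ ∀ i c : ℕ, k ≤ c →
        (q : ℤ) ∣ (b : ℤ) ^ (L * i + c) - (b : ℤ) ^ c := by
    intro m n hmn h
    refine ⟨m, n - m, by omega, ?_⟩
    have hstep : ∀ c : ℕ, m ≤ c → (b : ZMod q) ^ ((n - m) + c) = (b : ZMod q) ^ c := by
      intro c hc
      have e1 : (n - m) + c = n + (c - m) := by omega
      have e2 : c = m + (c - m) := by omega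
      rw [e1, pow_add, ← h, ← pow_add, ← e2]
    intro i c hc
    have hall : (b : ZMod q) ^ ((n - m) * i + c) = (b : ZMod q) ^ c := by
      induction i with
      | zero => simp
      | succ i ih =>
        have : (n - m) * (i + 1) + c = (n - m) + ((n - m) * i + c) := by ring
        rw [this, hstep _ (by omega), ih]
    rw [← ZMod.intCast_zmod_eq_zero_iff_dvd]
    push_cast
    rw [hall, sub_self]
  obtain ⟨m, n, hmn, h⟩ := Finite.exists_ne_map_eq_of_infinite (fun n : ℕ => (b : ZMod q) ^ n)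
  rcases lt_or_gt_of_ne hmn with h1 | h1
  · exact key m n h1 h
  · exact key n m h1 h.symm

lemma period_real (b : ℕ) (r : ℚ) : ∃ k L : ℕ, 1 ≤ L ∧ ∀ i c : ℕ, k ≤ c →
    ∃ z : ℤ, (r : ℝ) * (b : ℝ) ^ (L * i + c) = (r : ℝ) * (b : ℝ) ^ c + z := by
  obtain ⟨k, L, hL, h⟩ := exists_period b r.den r.den_pos
  refine ⟨k, L, hL, fun i c hc => ?_⟩
  obtain ⟨z, hz⟩ := h i c hc
  refine ⟨r.num * z, ?_⟩
  have hz' : (b : ℝ) ^ (L * i + c) - (b : ℝ) ^ c = (r.den : ℝ) * z := by exact_mod_cast hz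
  have hr : (r : ℝ) = r.num / r.den := by exact_mod_cast (Rat.num_div_den r).symm
  have hd : (r.den : ℝ) ≠ 0 := by exact_mod_cast r.den_nz
  have e : (b : ℝ) ^ (L * i + c) = (b : ℝ) ^ c + (r.den : ℝ) * z := by linarith
  rw [e, mul_add]
  congr 1
  rw [hr]
  push_cast
  field_simp

lemma ff_nonneg (b : ℕ) (y : ℝ) : 0 ≤ ff b y := by
  unfold ff
  split_ifs <;> norm_num

lemma ff_le (b : ℕ) (y : ℝ) : ff b y ≤ 1 := by
  unfold ff
  split_ifs <;> norm_num

lemma sum_range_mul' (g : ℕ → ℝ) (L M : ℕ) : ∑ n ∈ Finset.range (L * M), g n =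
    ∑ i ∈ Finset.range M, ∑ c ∈ Finset.range L, g (L * i + c) := by
  induction M with
  | zero => simp
  | succ M ih => rw [mul_add, mul_one, Finset.sum_range_add, ih, Finset.sum_range_succ]

theorem main : S_WL := by
  intro hVC hWB hAP hZF b x hb hAV r
  obtain ⟨k, L, hL, hper⟩ := period_real b r
  have hbpos : (0 : ℝ) < b := by exact_mod_cast (by omega : 0 < b)
  have hfreq : ∀ c : ℕ, k ≤ c → Tendsto (fun M : ℕ => (∑ i ∈ Finset.range M,
      ff b ((x + r) * (b : ℝ) ^ (L * i + c))) / (M : ℝ)) atTop (𝓝 (1 / (b : ℝ))) := by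
    intro c hc
    have h1 := hWB hAP 1 (fun i _ => (x + r) * (b : ℝ) ^ (L * i + c)) (by
      intro h hh
      have h0 : h 0 ≠ 0 := by
        intro h0
        apply hh
        ext j
        rw [Subsingleton.elim j 0, h0]
        rfl
      have hv := hVC b x hb hAV (h 0) L c h0 hL
      have hv' := hv.const_mul (ee (h 0 * (r * (b : ℝ) ^ c)))
      rw [mul_zero] at hv'
      refine hv'.congr fun N => ?_
      rw [← mul_div_assoc, Finset.mul_sum]
      congr 1
      refine Finset.sum_congr rfl fun i _ => ?_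
      rw [← ee_add]
      obtain ⟨z, hz⟩ := hper i c hc
      have e : (∑ j : Fin 1, (h j : ℝ) * ((x + r) * (b : ℝ) ^ (L * i + c))) =
          (h 0 * (r * (b : ℝ) ^ c) + h 0 * (x * (b : ℝ) ^ (L * i + c))) + ((h 0 * z : ℤ) : ℝ) := by
        rw [Fin.sum_univ_one, add_mul, hz]
        push_cast
        ring
      rw [e, ee_add _ (((h 0 * z : ℤ)) : ℝ), ee_int, mul_one]) (fun _ => 0) (fun _ => 1 / (b : ℝ))
      (by
        intro j
        refine ⟨le_rfl, by positivity, ?_⟩
        rw [div_le_one hbpos]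
        exact_mod_cast (by omega : 1 ≤ b))
    simp only [Finset.univ_unique, Finset.prod_singleton, sub_zero] at h1
    refine h1.congr fun N => ?_
    congr 1
    unfold ff
    rw [Finset.sum_boole]
    congr 2
    ext i
    simp [Int.fract_nonneg]
  intro ε hε
  have hLpos : (0 : ℝ) < L := by exact_mod_cast hL
  -- eventually in M all classes are good
  have hev : ∀ᶠ M : ℕ in atTop, ∀ c0 ∈ Finset.range L, ∑ i ∈ Finset.range M,
      ff b ((x + r) * (b : ℝ) ^ (L * i + (k + c0))) ≤ (1 / (b : ℝ) + ε / 2) * M := by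
    rw [Filter.eventually_all_finset]
    intro c0 _
    have h := (hfreq (k + c0) (by omega)).eventually_le_const
      (show 1 / (b : ℝ) < 1 / (b : ℝ) + ε / 2 by linarith)
    filter_upwards [h, eventually_gt_atTop 0] with M hM hM0
    have : (0 : ℝ) < M := by exact_mod_cast hM0
    exact (div_le_iff₀ this).1 hM
  have htend : Tendsto (fun N : ℕ => N / L + 1) atTop atTop := by
    refine tendsto_atTop_mono (f := fun N : ℕ => N / L) (fun N => Nat.le_succ _) ?_
    exact Nat.tendsto_div_const_atTop (by omega)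
  have hlarge : ∀ᶠ N : ℕ in atTop, (k : ℝ) + (1 / (b : ℝ) + ε / 2) * L ≤ ε / 2 * N := by
    have h : Tendsto (fun N : ℕ => ε / 2 * (N : ℝ)) atTop atTop :=
      Tendsto.const_mul_atTop (by linarith) tendsto_natCast_atTop_atTop
    exact h.eventually_ge_atTop _
  filter_upwards [htend.eventually hev, hlarge] with N hN hN2
  set M := N / L + 1 with hM
  have hNM : N ≤ k + L * M := by
    have := Nat.lt_mul_div_succ N (show 0 < L by omega)
    rw [hM]
    omega
  have hLM : L * M ≤ N + L := by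
    have := Nat.mul_div_le N L
    rw [hM, mul_add, mul_one]
    omega
  rw [hZF b (x + r) N hb]
  calc ∑ n ∈ Finset.range N, ff b ((x + r) * (b : ℝ) ^ n)
      ≤ ∑ n ∈ Finset.range (k + L * M), ff b ((x + r) * (b : ℝ) ^ n) :=
        Finset.sum_le_sum_of_subset_of_nonneg (Finset.range_subset_range.2 hNM)
          (fun _ _ _ => ff_nonneg _ _)
    _ = ∑ n ∈ Finset.range k, ff b ((x + r) * (b : ℝ) ^ n) +
        ∑ n ∈ Finset.range (L * M), ff b ((x + r) * (b : ℝ) ^ (k + n)) := by
        rw [Finset.sum_range_add]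
    _ ≤ k + ∑ n ∈ Finset.range (L * M), ff b ((x + r) * (b : ℝ) ^ (k + n)) := by
        gcongr
        calc ∑ n ∈ Finset.range k, ff b ((x + r) * (b : ℝ) ^ n)
            ≤ ∑ n ∈ Finset.range k, (1 : ℝ) := Finset.sum_le_sum fun _ _ => ff_le _ _
          _ = k := by simp
    _ = k + ∑ c ∈ Finset.range L, ∑ i ∈ Finset.range M,
          ff b ((x + r) * (b : ℝ) ^ (L * i + (k + c))) := by
        rw [sum_range_mul', Finset.sum_comm]
        congr 1
        refine Finset.sum_congr rfl fun c _ => Finset.sum_congr rfl fun i _ => ?_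
        rw [show k + (L * i + c) = L * i + (k + c) by ring]
    _ ≤ k + ∑ c ∈ Finset.range L, (1 / (b : ℝ) + ε / 2) * M := by
        gcongr with c hc
        exact hN c hc
    _ = k + (1 / (b : ℝ) + ε / 2) * ((L * M : ℕ) : ℝ) := by
        rw [Finset.sum_const, nsmul_eq_mul, Finset.card_range]
        push_cast
        ring
    _ ≤ k + (1 / (b : ℝ) + ε / 2) * ((N + L : ℕ) : ℝ) := by
        gcongr
    _ = (k + (1 / (b : ℝ) + ε / 2) * L) + (1 / (b : ℝ) + ε / 2) * N := by
        push_cast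
        ring
    _ ≤ ε / 2 * N + (1 / (b : ℝ) + ε / 2) * N := by gcongr
    _ = (1 / (b : ℝ) + ε) * N := by ring

end Pool.Agent.W471.ND.WL
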